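import Pool.Agent.P8H15.RM.Stm

/-! Package LG of project RM: elementary inequalities for the logarithm of the Euler product. -/

set_option autoImplicit false

namespace Pool.Agent.P8H53.RM

open Finset MeasureTheory ProbabilityTheory Filter Topology
open scoped Classical
open Pool.Agent.P8H15.RM

theorem log_low {y c e : ℝ} (hy0 : 0 ≤ y) (hy : y ≤ 1 / 4) (hc : |c| ≤ 1) (he : e = 1 ∨ e = -1) :
    -(2 * e * y * c) - y ^ 2 * (2 * c ^ 2 - 1) - 66 * y ^ 3 ≤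
      Real.log (1 - 2 * e * y * c + y ^ 2) := by
  have hc' := abs_le.1 hc
  set s : ℝ := e * c with hs
  have hs2 : s ^ 2 = c ^ 2 := by rcases he with rfl | rfl <;> rw [hs] <;> ring
  have hs1 : -1 ≤ s ∧ s ≤ 1 := by
    rcases he with rfl | rfl <;> rw [hs] <;> constructor <;> linarith [hc'.1, hc'.2]
  set u : ℝ := y ^ 2 - 2 * s * y with hu
  have hy2 : 0 ≤ y ^ 2 := sq_nonneg y
  have hy3 : 0 ≤ y ^ 3 := pow_nonneg hy0 3
  have hua : |u| ≤ 2 * y + y ^ 2 := by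
    rw [abs_le, hu]
    constructor
    · nlinarith [mul_nonneg hy0 (sub_nonneg.2 hs1.2)]
    · nlinarith [mul_nonneg hy0 (by linarith [hs1.1] : 0 ≤ 1 + s)]
  have hu2 : |u| ≤ 9 / 4 * y := by nlinarith
  have hu1 : |u| ≤ 9 / 16 := by linarith
  have h1 := Real.abs_log_sub_add_sum_range_le (x := -u) (by rw [abs_neg]; linarith) 2
  rw [Finset.sum_range_succ, Finset.sum_range_succ, Finset.sum_range_zero, abs_neg] at h1
  have h2 : |u| ^ (2 + 1) / (1 - |u|) ≤ 27 * y ^ 3 := by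
    rw [div_le_iff₀ (by linarith)]
    have h3 : |u| ^ 3 ≤ (9 / 4 * y) ^ 3 := pow_le_pow_left₀ (abs_nonneg _) hu2 3
    have h4 : y ^ 3 * (7 / 16) ≤ y ^ 3 * (1 - |u|) := mul_le_mul_of_nonneg_left (by linarith) hy3
    norm_num at h3 ⊢
    nlinarith
  have h3 := (abs_le.1 (h1.trans h2)).1
  have h4 : 1 - -u = 1 - 2 * e * y * c + y ^ 2 := by rw [hu, hs]; ring
  rw [h4] at h3
  have h5 : u ^ 2 = 4 * y ^ 2 * c ^ 2 - 4 * s * y ^ 3 + y ^ 4 := by
    rw [hu, ← hs2]; ring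
  have h6 : y ^ 4 ≤ y ^ 3 := by nlinarith
  have h7 : -y ^ 3 ≤ s * y ^ 3 := by nlinarith [mul_nonneg hy3 (by linarith [hs1.1] : 0 ≤ 1 + s)]
  have h8 : 2 * e * y * c = 2 * s * y := by rw [hs]; ring
  rw [h8] at h3 ⊢
  norm_num at h3
  nlinarith

theorem fac_ge {y c e : ℝ} (hy0 : 0 ≤ y) (hy : y ≤ 3 / 4) (hc : |c| ≤ 1) (he : e = 1 ∨ e = -1) :
    1 / 16 ≤ 1 - 2 * e * y * c + y ^ 2 := by
  have hc' := abs_le.1 hc
  rcases he with rfl | rfl <;> nlinarith

section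

variable {q : ℕ} {δ t : ℝ}

theorem rpow_le_half (hq : 1 ≤ q) (hδ : 0 ≤ δ) :
    (q : ℝ) ^ (-(1 / 2 + δ)) ≤ (q : ℝ) ^ (-(1 / 2 : ℝ)) :=
  Real.rpow_le_rpow_of_exponent_le (by exact_mod_cast hq) (by linarith)

theorem sq_rpow (q : ℕ) (δ : ℝ) : ((q : ℝ) ^ (-(1 / 2 + δ))) ^ 2 = (q : ℝ) ^ (-(1 + 2 * δ)) := by
  rw [← Real.rpow_natCast, ← Real.rpow_mul (Nat.cast_nonneg q)]
  congr 1
  push_cast
  ring

theorem half_sq (q : ℕ) : ((q : ℝ) ^ (-(1 / 2 : ℝ))) ^ 2 = (q : ℝ)⁻¹ := by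
  rw [← Real.rpow_natCast, ← Real.rpow_mul (Nat.cast_nonneg q)]
  have : (-(1 / 2 : ℝ)) * ((2 : ℕ) : ℝ) = -1 := by norm_num
  rw [this, Real.rpow_neg_one]

theorem half_cube (q : ℕ) : ((q : ℝ) ^ (-(1 / 2 : ℝ))) ^ 3 = (q : ℝ) ^ (-(3 / 2) : ℝ) := by
  rw [← Real.rpow_natCast, ← Real.rpow_mul (Nat.cast_nonneg q)]
  congr 1
  norm_num

theorem half_le {q : ℕ} (hq : 16 ≤ q) : (q : ℝ) ^ (-(1 / 2 : ℝ)) ≤ 1 / 4 := by
  have hq' : (16 : ℝ) ≤ q := by exact_mod_cast hq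
  have h0 : 0 < (q : ℝ) := by linarith
  have h1 : (q : ℝ)⁻¹ ≤ 1 / 16 := by
    rw [inv_le_comm₀ h0 (by norm_num)]
    simpa using hq'
  have h2 := half_sq q
  have h3 : 0 ≤ (q : ℝ) ^ (-(1 / 2 : ℝ)) := Real.rpow_nonneg h0.le _
  nlinarith

theorem half_le' {q : ℕ} (hq : 2 ≤ q) : (q : ℝ) ^ (-(1 / 2 : ℝ)) ≤ 3 / 4 := by
  have hq' : (2 : ℝ) ≤ q := by exact_mod_cast hq
  have h0 : 0 < (q : ℝ) := by linarith
  have h1 : (q : ℝ)⁻¹ ≤ 1 / 2 := by
    rw [inv_le_comm₀ h0 (by norm_num)]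
    simpa using hq'
  have h2 := half_sq q
  have h3 : 0 ≤ (q : ℝ) ^ (-(1 / 2 : ℝ)) := Real.rpow_nonneg h0.le _
  nlinarith

theorem fac_eq (δ t : ℝ) (e : ℕ → ℝ) (q : ℕ) : fac δ t e q =
    1 - 2 * e q * (q : ℝ) ^ (-(1 / 2 + δ)) * Real.cos (t * Real.log q) +
      ((q : ℝ) ^ (-(1 / 2 + δ))) ^ 2 := by
  rw [sq_rpow]
  rfl

theorem one_term {e : ℕ → ℝ} (he : Sgn e) (hq : 16 ≤ q) (hδ : 0 ≤ δ) :
    cf δ t q * (e q - tl t q) + 2 * (q : ℝ) ^ (-(1 + δ)) +
      2 * ((q : ℝ) ^ (-(1 + δ)) * Real.cos (2 * t * Real.log q)) -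
      (q : ℝ) ^ (-(1 + 2 * δ)) * Real.cos (2 * t * Real.log q) - 70 * (q : ℝ) ^ (-(3 / 2) : ℝ) ≤
      Real.log (fac δ t e q) := by
  have hq0 : (0 : ℝ) < q := by
    have : 0 < q := by omega
    exact_mod_cast this
  have hq1 : 1 ≤ q := by omega
  set h : ℝ := (q : ℝ) ^ (-(1 / 2 : ℝ)) with hh
  set y : ℝ := (q : ℝ) ^ (-(1 / 2 + δ)) with hy
  set c : ℝ := Real.cos (t * Real.log q) with hc
  have hh0 : 0 < h := Real.rpow_pos_of_pos hq0 _
  have hy0 : 0 < y := Real.rpow_pos_of_pos hq0 _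
  have hyh : y ≤ h := rpow_le_half hq1 hδ
  have hh4 : h ≤ 1 / 4 := half_le hq
  have hc1 : |c| ≤ 1 := Real.abs_cos_le_one _
  have hc2 : c ^ 2 ≤ 1 := by rw [← sq_abs]; nlinarith [abs_nonneg c]
  have hco : Real.cos (2 * t * Real.log q) = 2 * c ^ 2 - 1 := by
    rw [hc, ← Real.cos_two_mul]
    congr 1
    ring
  have e1 : (q : ℝ) ^ (-(1 + δ)) = y * h := by
    rw [hy, hh, ← Real.rpow_add hq0]
    congr 1
    ring
  have e2 : (q : ℝ) ^ (-(1 + 2 * δ)) = y ^ 2 := (sq_rpow q δ).symm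
  have e3 : (q : ℝ) ^ (-(3 / 2) : ℝ) = h ^ 3 := (half_cube q).symm
  have e4 : (q : ℝ)⁻¹ = h ^ 2 := (half_sq q).symm
  have e5 : cf δ t q = -(2 * y * c) := rfl
  have e6 : tl t q = -(2 * h * c) / (1 + h ^ 2) := by
    rw [← e4, ← one_div]
    rfl
  have h1 := log_low hy0.le (hyh.trans hh4) hc1 (he q)
  rw [fac_eq, ← hy, ← hc, hco, e1, e2, e3, e5, e6]
  have hy3 : y ^ 3 ≤ h ^ 3 := pow_le_pow_left₀ hy0.le hyh 3
  -- the product of the coefficient and the mean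
  have h2 : 4 * (y * h) * c ^ 2 - 4 * h ^ 3 ≤ (2 * y * c) * ((2 * h * c) / (1 + h ^ 2)) := by
    have hp : 0 < 1 + h ^ 2 := by positivity
    rw [← mul_div_assoc, le_div_iff₀ hp]
    have h3 : y * h * c ^ 2 ≤ h := by
      calc y * h * c ^ 2 ≤ y * h * 1 := mul_le_mul_of_nonneg_left hc2 (by positivity)
        _ ≤ 1 * h * 1 := by
          gcongr
          linarith
        _ = h := by ring
    have h4 : 0 ≤ h ^ 2 := sq_nonneg h
    have h5 : 0 ≤ h ^ 5 := by positivity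
    nlinarith [mul_le_mul_of_nonneg_left h3 h4]
  have h3 : -(2 * y * c) * (e q - -(2 * h * c) / (1 + h ^ 2)) =
      -(2 * e q * y * c) - (2 * y * c) * ((2 * h * c) / (1 + h ^ 2)) := by
    ring
  rw [h3]
  nlinarith

end

theorem pr_eq {N' N : ℕ} (h : N' ≤ N) : pr N = pr N' ∪ blk N' N := by
  ext q
  simp only [pr, blk, Finset.mem_filter, Finset.mem_union, Finset.mem_Icc, Finset.mem_Ioc]
  constructor
  · rintro ⟨⟨h1, h2⟩, h3⟩
    by_cases hq : q ≤ N'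
    · exact Or.inl ⟨⟨h1, hq⟩, h3⟩
    · exact Or.inr ⟨⟨by omega, h2⟩, h3⟩
  · rintro (⟨⟨h1, h2⟩, h3⟩ | ⟨⟨h1, h2⟩, h3⟩)
    · exact ⟨⟨h1, h2.trans h⟩, h3⟩
    · exact ⟨⟨by omega, h2⟩, h3⟩

theorem pr_disj (N' N : ℕ) : Disjoint (pr N') (blk N' N) := by
  rw [Finset.disjoint_left]
  intro q h1 h2
  simp only [pr, blk, Finset.mem_filter, Finset.mem_Icc, Finset.mem_Ioc] at h1 h2
  omega

theorem sum_pr {N' N : ℕ} (h : N' ≤ N) (f : ℕ → ℝ) :
    ∑ q ∈ pr N, f q = ∑ q ∈ pr N', f q + ∑ q ∈ blk N' N, f q := by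
  rw [pr_eq h, Finset.sum_union (pr_disj N' N)]

theorem abs_sum_pr_le (N' : ℕ) (f : ℕ → ℝ) (hf : ∀ q ∈ pr N', |f q| ≤ 1) :
    |∑ q ∈ pr N', f q| ≤ N' := by
  have h1 : (pr N').card ≤ N' := by
    unfold pr
    refine (Finset.card_filter_le _ _).trans ?_
    rw [Nat.card_Icc]
    omega
  calc |∑ q ∈ pr N', f q| ≤ ∑ q ∈ pr N', |f q| := Finset.abs_sum_le_sum_abs _ _
    _ ≤ ∑ _q ∈ pr N', (1 : ℝ) := Finset.sum_le_sum hf
    _ = (pr N').card := by simp
    _ ≤ N' := by exact_mod_cast h1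

theorem pr_two {N q : ℕ} (h : q ∈ pr N) : 2 ≤ q := by
  simp only [pr, Finset.mem_filter] at h
  exact h.2.two_le

theorem blk_lt {N' N q : ℕ} (h : q ∈ blk N' N) : N' < q := by
  simp only [blk, Finset.mem_filter, Finset.mem_Ioc] at h
  exact h.1.1

theorem lg : S_FT → S_ZT → S_RR → S_LG := by
  intro hFT hZT hRR t ht K N' hN'
  obtain ⟨C, hC⟩ := hZT t ht
  obtain ⟨CR, hCR0, hCR⟩ := hRR
  set C3 : ℝ := ∑' n : ℕ, (n : ℝ) ^ (-(3 / 2) : ℝ) with hC3
  have hsum : Summable fun n : ℕ => (n : ℝ) ^ (-(3 / 2) : ℝ) :=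
    Real.summable_nat_rpow.2 (by norm_num)
  have hC3' : ∀ S : Finset ℕ, ∑ q ∈ S, (q : ℝ) ^ (-(3 / 2) : ℝ) ≤ C3 := fun S =>
    hsum.sum_le_tsum S fun n _ => Real.rpow_nonneg (Nat.cast_nonneg n) _
  set A : ℝ := (9 / 4 + t ^ 2) * (|K| + 1) * CR / 2 with hA
  have hA0 : 0 < A := by
    have : 0 ≤ |K| := abs_nonneg K
    positivity
  set B : ℝ := Real.log A + 8 * N' + 5 * C + 70 * C3 with hB
  -- choose N
  have htend : Tendsto (fun n : ℕ => 2 * Real.log (Real.log (n : ℝ))) atTop atTop :=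
    (Real.tendsto_log_atTop.comp (Real.tendsto_log_atTop.comp
      tendsto_natCast_atTop_atTop)).const_mul_atTop (by norm_num)
  obtain ⟨N, hN1, hN2⟩ := ((htend.eventually_ge_atTop
    (4 * C + 4 * N' + 1 + (16 * (|B| + 1)) ^ 2)).and (eventually_gt_atTop N')).exists
  have hN16 : 16 < N := by omega
  have hNr : (16 : ℝ) < N := by exact_mod_cast hN16
  have hlog1 : 1 ≤ Real.log N := by
    rw [Real.le_log_iff_exp_le (by linarith)]
    have := Real.exp_one_lt_d9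
    linarith
  set δ : ℝ := 1 / Real.log N with hδ
  have hδ0 : 0 < δ := by positivity
  have hδ1 : δ ≤ 1 := by
    rw [hδ, div_le_one (by linarith)]
    exact hlog1
  obtain ⟨z1, z2⟩ := hC N (by omega) δ le_rfl (by
    rw [hδ]
    gcongr
    norm_num)
  obtain ⟨z3, z4⟩ := hC N (by omega) (2 * δ) (by rw [hδ]; linarith [hδ0]) (by
    rw [hδ, mul_one_div])
  -- the sums over the block
  have hle : N' ≤ N := hN2.le
  have hsmall : ∀ (r : ℝ), 0 ≤ r → ∀ q ∈ pr N', |(q : ℝ) ^ (-(1 + r))| ≤ 1 := by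
    intro r hr q hq
    have h2 := pr_two hq
    have hq1 : (1 : ℝ) ≤ q := by
      have : 1 ≤ q := by omega
      exact_mod_cast this
    rw [abs_of_nonneg (Real.rpow_nonneg (by linarith) _)]
    exact Real.rpow_le_one_of_one_le_of_nonpos hq1 (by linarith)
  have hsmallc : ∀ (r : ℝ), 0 ≤ r → ∀ q ∈ pr N',
      |(q : ℝ) ^ (-(1 + r)) * Real.cos (2 * t * Real.log q)| ≤ 1 := by
    intro r hr q hq
    rw [abs_mul]
    exact mul_le_one₀ (hsmall r hr q hq) (abs_nonneg _) (Real.abs_cos_le_one _)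
  have b1 : Real.log (Real.log N) - C - N' ≤ ∑ q ∈ blk N' N, (q : ℝ) ^ (-(1 + δ)) := by
    have h1 := abs_sum_pr_le N' _ (hsmall δ hδ0.le)
    have h2 := sum_pr hle fun q => (q : ℝ) ^ (-(1 + δ))
    have h3 := (abs_le.1 h1).2
    linarith
  have b2 : |∑ q ∈ blk N' N, (q : ℝ) ^ (-(1 + δ)) * Real.cos (2 * t * Real.log q)| ≤ C + N' := by
    have h1 := abs_le.1 (abs_sum_pr_le N' _ (hsmallc δ hδ0.le))
    have h2 := sum_pr hle fun q => (q : ℝ) ^ (-(1 + δ)) * Real.cos (2 * t * Real.log q)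
    have h3 := abs_le.1 z1
    rw [abs_le]
    constructor <;> linarith [h1.1, h1.2, h3.1, h3.2]
  have b3 : Real.log (Real.log N) - C - N' ≤ ∑ q ∈ blk N' N, (q : ℝ) ^ (-(1 + 2 * δ)) := by
    have h1 := abs_sum_pr_le N' _ (hsmall (2 * δ) (by linarith))
    have h2 := sum_pr hle fun q => (q : ℝ) ^ (-(1 + 2 * δ))
    have h3 := (abs_le.1 h1).2
    linarith
  have b4 : |∑ q ∈ blk N' N, (q : ℝ) ^ (-(1 + 2 * δ)) * Real.cos (2 * t * Real.log q)| ≤
      C + N' := by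
    have h1 := abs_le.1 (abs_sum_pr_le N' _ (hsmallc (2 * δ) (by linarith)))
    have h2 := sum_pr hle fun q => (q : ℝ) ^ (-(1 + 2 * δ)) * Real.cos (2 * t * Real.log q)
    have h3 := abs_le.1 z3
    rw [abs_le]
    constructor <;> linarith [h1.1, h1.2, h3.1, h3.2]
  -- the variance
  have hV : ∑ q ∈ blk N' N, cf δ t q ^ 2 = 2 * ∑ q ∈ blk N' N, (q : ℝ) ^ (-(1 + 2 * δ)) +
      2 * ∑ q ∈ blk N' N, (q : ℝ) ^ (-(1 + 2 * δ)) * Real.cos (2 * t * Real.log q) := by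
    rw [Finset.mul_sum, Finset.mul_sum, ← Finset.sum_add_distrib]
    refine Finset.sum_congr rfl fun q _ => ?_
    have hco : Real.cos (2 * t * Real.log q) = 2 * Real.cos (t * Real.log q) ^ 2 - 1 := by
      rw [← Real.cos_two_mul]
      congr 1
      ring
    rw [hco, ← sq_rpow]
    unfold cf
    ring
  have hV1 : 1 + (16 * (|B| + 1)) ^ 2 ≤ ∑ q ∈ blk N' N, cf δ t q ^ 2 := by
    rw [hV]
    have := (abs_le.1 b4).1
    linarith
  refine ⟨N, hN2, ?_, ?_, ?_⟩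
  · rw [← hδ]
    nlinarith [sq_nonneg (16 * (|B| + 1))]
  · intro q hq
    rw [← hδ]
    have hq16 : 16 ≤ q := (hN'.trans (blk_lt hq).le)
    have hq1 : 1 ≤ q := by omega
    have hq0 : (0 : ℝ) < q := by exact_mod_cast (by omega : 0 < q)
    have h1 := half_le hq16
    have h2 : (0 : ℝ) < (q : ℝ) ^ (-(1 / 2 : ℝ)) := Real.rpow_pos_of_pos hq0 _
    have h3 := rpow_le_half hq1 hδ0.le
    have h4 : (0 : ℝ) < (q : ℝ) ^ (-(1 / 2 + δ)) := Real.rpow_pos_of_pos hq0 _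
    have h5 := Real.abs_cos_le_one (t * Real.log q)
    constructor
    · unfold cf
      rw [abs_neg, abs_mul, abs_mul, abs_of_pos h4, abs_two]
      nlinarith [abs_nonneg (Real.cos (t * Real.log q))]
    · unfold tl
      rw [abs_div, abs_neg, abs_mul, abs_mul, abs_of_pos h2, abs_two,
        abs_of_pos (by positivity : (0 : ℝ) < 1 + 1 / (q : ℝ)), div_le_iff₀ (by positivity)]
      have h6 : (0 : ℝ) < 1 / (q : ℝ) := by positivity
      nlinarith [abs_nonneg (Real.cos (t * Real.log q))]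
  · intro e he hJ
    rw [← hδ]
    -- the product
    have hft := (hFT e he N).2 δ t hδ0
    have hR := hCR N (by omega)
    have hR0 : 0 < R N := Finset.prod_pos fun q _ => by positivity
    have hlogpos : 0 < Real.log N := by linarith
    have hprod : ∏ q ∈ pr N, fac δ t e q ≤ A * Real.log N ^ 2 := by
      have h1 : J N e ≤ (|K| + 1) * (CR * Real.log N) := by
        calc J N e ≤ K * R N := hJ
          _ ≤ (|K| + 1) * R N := by
            apply mul_le_mul_of_nonneg_right _ hR0.le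
            linarith [le_abs_self K]
          _ ≤ _ := by
            apply mul_le_mul_of_nonneg_left hR
            positivity
      have h2 : ((1 / 2 + δ) ^ 2 + t ^ 2) * J N e ≤
          (9 / 4 + t ^ 2) * ((|K| + 1) * (CR * Real.log N)) := by
        have h3 : (1 / 2 + δ) ^ 2 + t ^ 2 ≤ 9 / 4 + t ^ 2 := by nlinarith
        calc _ ≤ ((1 / 2 + δ) ^ 2 + t ^ 2) * ((|K| + 1) * (CR * Real.log N)) :=
              mul_le_mul_of_nonneg_left h1 (by positivity)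
          _ ≤ _ := mul_le_mul_of_nonneg_right h3 (by positivity)
      have h3 := hft.trans h2
      have h4 : 2 * δ * ∏ q ∈ pr N, fac δ t e q =
          2 / Real.log N * ∏ q ∈ pr N, fac δ t e q := by rw [hδ]; ring
      rw [h4, div_mul_eq_mul_div, div_le_iff₀ hlogpos] at h3
      rw [hA]
      nlinarith
    have hfpos : ∀ q ∈ pr N, 1 / 16 ≤ fac δ t e q := by
      intro q hq
      have h2 := pr_two hq
      have hq0 : (0 : ℝ) < q := by exact_mod_cast (by omega : 0 < q)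
      rw [fac_eq]
      exact fac_ge (Real.rpow_pos_of_pos hq0 _).le
        ((rpow_le_half (by omega) hδ0.le).trans (half_le' h2)) (Real.abs_cos_le_one _) (he q)
    have hlogsum : ∑ q ∈ pr N, Real.log (fac δ t e q) ≤
        Real.log A + 2 * Real.log (Real.log N) := by
      rw [← Real.log_prod fun q hq => (lt_of_lt_of_le (by norm_num) (hfpos q hq)).ne']
      have h1 : Real.log A + 2 * Real.log (Real.log N) = Real.log (A * Real.log N ^ 2) := by
        rw [Real.log_mul hA0.ne' (by positivity), Real.log_pow]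
        norm_num
      rw [h1]
      exact Real.log_le_log (Finset.prod_pos fun q hq =>
        lt_of_lt_of_le (by norm_num) (hfpos q hq)) hprod
    rw [sum_pr hle] at hlogsum
    have hlow : -(3 * (N' : ℝ)) ≤ ∑ q ∈ pr N', Real.log (fac δ t e q) := by
      have hlog16 : Real.log 16 ≤ 3 := by
        have h1 : (16 : ℝ) = 2 ^ 4 := by norm_num
        rw [h1, Real.log_pow]
        have := Real.log_two_lt_d9
        norm_num
        linarith
      have h1 : ∀ q ∈ pr N', (-3 : ℝ) ≤ Real.log (fac δ t e q) := by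
        intro q hq
        have hq' : q ∈ pr N := by
          rw [pr_eq hle]
          exact Finset.mem_union_left _ hq
        have h2 : Real.log (1 / 16) ≤ Real.log (fac δ t e q) :=
          Real.log_le_log (by norm_num) (hfpos q hq')
        rw [one_div, Real.log_inv] at h2
        linarith
      have h2 : ((pr N').card : ℝ) ≤ N' := by
        have h1 : (pr N').card ≤ N' := by
          unfold pr
          refine (Finset.card_filter_le _ _).trans ?_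
          rw [Nat.card_Icc]
          omega
        exact_mod_cast h1
      have h3 := Finset.card_nsmul_le_sum (pr N') _ (-3 : ℝ) h1
      rw [nsmul_eq_mul] at h3
      linarith
    have hblk : ∑ q ∈ blk N' N, cf δ t q * (e q - tl t q) +
        2 * ∑ q ∈ blk N' N, (q : ℝ) ^ (-(1 + δ)) +
        2 * ∑ q ∈ blk N' N, (q : ℝ) ^ (-(1 + δ)) * Real.cos (2 * t * Real.log q) -
        ∑ q ∈ blk N' N, (q : ℝ) ^ (-(1 + 2 * δ)) * Real.cos (2 * t * Real.log q) -
        70 * ∑ q ∈ blk N' N, (q : ℝ) ^ (-(3 / 2) : ℝ) ≤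
        ∑ q ∈ blk N' N, Real.log (fac δ t e q) := by
      rw [Finset.mul_sum, Finset.mul_sum, Finset.mul_sum, ← Finset.sum_add_distrib,
        ← Finset.sum_add_distrib, ← Finset.sum_sub_distrib, ← Finset.sum_sub_distrib]
      refine Finset.sum_le_sum fun q hq => ?_
      exact one_term he (hN'.trans (blk_lt hq).le) hδ0.le
    have hc3 := hC3' (blk N' N)
    have hL : ∑ q ∈ blk N' N, cf δ t q * (e q - tl t q) ≤ B := by
      have h2 := (abs_le.1 b2).1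
      have h4 := (abs_le.1 b4).2
      rw [hB]
      linarith
    have hsq : 16 * (|B| + 1) ≤ √(∑ q ∈ blk N' N, cf δ t q ^ 2) := by
      apply Real.le_sqrt_of_sq_le
      linarith
    have h5 := le_abs_self B
    linarith

end Pool.Agent.P8H53.RM
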